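import Pool.Agent.P.MP_4fa782_ag.LD.Base

namespace Pool.Agent.Results.MP_4fa782_ag.LocalDomain

open Pool.Agent.P.MP_4fa782_ag

/-- Saturation and completion do not commute in any dimension `r ≥ 2`, over any residue field `k`
of characteristic zero, even for a local domain `o` whose completion is a domain: `o` is its own
saturation, and the completion of the saturation of `o`, embedded in the total ring of quotients
of the completion of `o`, is strictly smaller than the saturation of the completion of `o`. -/
theorem result (k : Type) [Field k] [CharZero k] (r : ℕ) (hr : 2 ≤ r) :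
    ∃ (R o : Type) (_ : CommRing R) (_ : IsDomain R) (_ : CommRing o) (_ : Algebra R o)
      (φ : k →+* R),
      IsPair R o ∧ ringKrullDim R = r ∧ (∀ x : R, ∃ c : k, ¬ IsUnit (x - φ c)) ∧
      IsLocalRing o ∧ IsDomain o ∧ IsDomain (Completion o) ∧
      saturation R o = (algebraMap o (FractionRing o)).range ∧
      ∃ (_ : IsDomain (Completion R)) (_ : Algebra (Completion R) (Completion o)),
        IsInduced (algebraMap R o) (algebraMap (Completion R) (Completion o)) ∧
        Module.IsTorsionFree (Completion R) (Completion o) ∧
        CompletionBelowSaturation (Completion R) (toSaturation R o) := by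
  obtain ⟨n, rfl⟩ : ∃ n, r = n + 2 := ⟨r - 2, by omega⟩
  obtain ⟨o, _, _, h1, h2⟩ := LD.main k n
  exact ⟨LD.RR k n, o, inferInstance, inferInstance, inferInstance, inferInstance,
    algebraMap k _, h1, LD.ringKrullDim_RR k n, LD.residue_RR k n, h2⟩

end Pool.Agent.Results.MP_4fa782_ag.LocalDomain
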